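import Mathlib

/-!
# Concise cubics whose apolar ideals have many minimal cubic generators

For `m = a (a + 3) / 2` the cubic `T = ∑ z_q x^q` (`q` running over the monomials of degree two
in `a` variables `x`, with one further variable `z_q` for each `q`) is concise, and its apolar
ideal has at least `binom (a + 2) 3` minimal generators of degree three. For `a = 3` this is a
cubic in `9` variables with at least `10` minimal cubic generators.
-/

namespace Pool.Agent.Results.MP_1eaf4f_ag.ManyCubicGenerators

open MvPolynomial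

variable {σ : Type*}

/-- The differential operator `∂^m`: it sends the monomial `x^u` to
`∏ i, u_i (u_i - 1) ⋯ (u_i - m_i + 1) • x^(u - m)` (which is `0` unless `m ≤ u`). -/
noncomputable def monomialDiff (m : σ →₀ ℕ) : MvPolynomial σ ℂ →ₗ[ℂ] MvPolynomial σ ℂ :=
  (basisMonomials σ ℂ).constr ℂ fun u =>
    monomial (u - m) (m.prod fun i e => ((u i).descFactorial e : ℂ))

/-- The apolarity action `(f, T) ↦ f(∂) T` of the polynomial ring, `x^m` acting as `∂^m`. -/
noncomputable def apolar : MvPolynomial σ ℂ →ₗ[ℂ] MvPolynomial σ ℂ →ₗ[ℂ] MvPolynomial σ ℂ :=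
  (basisMonomials σ ℂ).constr ℂ monomialDiff

lemma monomialDiff_monomial (m u : σ →₀ ℕ) (c : ℂ) :
    monomialDiff m (monomial u c) =
      monomial (u - m) (c * m.prod fun i e => ((u i).descFactorial e : ℂ)) := by
  have h1 : monomial u c = c • (basisMonomials σ ℂ u) := by
    rw [coe_basisMonomials, smul_monomial, smul_eq_mul, mul_one]
  rw [h1, map_smul, monomialDiff, Module.Basis.constr_basis, smul_monomial, smul_eq_mul]

lemma apolar_monomial (m : σ →₀ ℕ) (c : ℂ) (T : MvPolynomial σ ℂ) :
    apolar (monomial m c) T = c • monomialDiff m T := by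
  have h1 : monomial m c = c • (basisMonomials σ ℂ m) := by
    rw [coe_basisMonomials, smul_monomial, smul_eq_mul, mul_one]
  rw [h1, map_smul, apolar, Module.Basis.constr_basis, LinearMap.smul_apply]

/-- The variable `x_i` acts as the partial derivative. -/
lemma apolar_X (i : σ) (T : MvPolynomial σ ℂ) : apolar (X i) T = pderiv i T := by
  classical
  induction T using MvPolynomial.induction_on' with
  | monomial u c =>
    rw [X, apolar_monomial, one_smul, monomialDiff_monomial, pderiv_monomial]
    congr 2
    rw [Finsupp.prod_single_index]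
    · simp
    · simp
  | add p q hp hq => rw [map_add, map_add, hp, hq]

lemma desc_add (n a b : ℕ) :
    n.descFactorial (a + b) = n.descFactorial a * (n - a).descFactorial b := by
  induction b with
  | zero => simp
  | succ b ih =>
    rw [← add_assoc, Nat.descFactorial_succ, ih, Nat.descFactorial_succ, Nat.sub_sub]
    ring

lemma monomialDiff_add (m m' : σ →₀ ℕ) (T : MvPolynomial σ ℂ) :
    monomialDiff (m + m') T = monomialDiff m (monomialDiff m' T) := by
  classical
  induction T using MvPolynomial.induction_on' with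
  | monomial u c =>
    rw [monomialDiff_monomial, monomialDiff_monomial, monomialDiff_monomial]
    have h1 : u - (m + m') = u - m' - m := by
      rw [add_comm, tsub_tsub]
    rw [h1, mul_assoc]
    congr 2
    let S := m.support ∪ m'.support
    have e1 : ((m + m').prod fun i e => ((u i).descFactorial e : ℂ)) =
        ∏ i ∈ S, ((u i).descFactorial ((m + m') i) : ℂ) := by
      apply Finsupp.prod_of_support_subset
      · exact Finsupp.support_add
      · simp
    have e2 : (m'.prod fun i e => ((u i).descFactorial e : ℂ)) =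
        ∏ i ∈ S, ((u i).descFactorial (m' i) : ℂ) := by
      apply Finsupp.prod_of_support_subset
      · exact Finset.subset_union_right
      · simp
    have e3 : (m.prod fun i e => (((u - m') i).descFactorial e : ℂ)) =
        ∏ i ∈ S, (((u - m') i).descFactorial (m i) : ℂ) := by
      apply Finsupp.prod_of_support_subset
      · exact Finset.subset_union_left
      · simp
    rw [e1, e2, e3, ← Finset.prod_mul_distrib]
    refine Finset.prod_congr rfl fun i _ => ?_
    rw [Finsupp.add_apply, add_comm (m i), desc_add, Nat.cast_mul, Finsupp.tsub_apply]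
  | add p q hp hq => rw [map_add, map_add, map_add, hp, hq]

lemma apolar_mul (f g T : MvPolynomial σ ℂ) : apolar (f * g) T = apolar f (apolar g T) := by
  induction f using MvPolynomial.induction_on' with
  | monomial m c =>
    induction g using MvPolynomial.induction_on' with
    | monomial m' c' =>
      rw [monomial_mul, apolar_monomial, apolar_monomial, apolar_monomial, monomialDiff_add,
        map_smul, smul_smul]
    | add p q hp hq =>
      rw [mul_add, map_add, LinearMap.add_apply, hp, hq, map_add, LinearMap.add_apply, map_add]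
  | add p q hp hq =>
    rw [add_mul, map_add, LinearMap.add_apply, hp, hq, map_add, LinearMap.add_apply]

/-- The apolar ideal `Ann(T) = {f : f(∂) T = 0}`. -/
noncomputable def annIdeal (T : MvPolynomial σ ℂ) : Ideal (MvPolynomial σ ℂ) where
  carrier := {f | apolar f T = 0}
  zero_mem' := by
    show apolar 0 T = 0
    rw [map_zero, LinearMap.zero_apply]
  add_mem' := by
    intro f g hf hg
    show apolar (f + g) T = 0
    rw [map_add, LinearMap.add_apply, show apolar f T = 0 from hf, show apolar g T = 0 from hg,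
      add_zero]
  smul_mem' := by
    intro c f hf
    show apolar (c * f) T = 0
    rw [apolar_mul, show apolar f T = 0 from hf, map_zero]

lemma mem_annIdeal {T f : MvPolynomial σ ℂ} : f ∈ annIdeal T ↔ apolar f T = 0 := Iff.rfl

/-- `Ann(T)_d`, the degree `d` part of the apolar ideal. -/
noncomputable def annDeg (T : MvPolynomial σ ℂ) (d : ℕ) : Submodule ℂ (MvPolynomial σ ℂ) :=
  (annIdeal T).restrictScalars ℂ ⊓ homogeneousSubmodule σ ℂ d

lemma mem_annDeg {T f : MvPolynomial σ ℂ} {d : ℕ} :
    f ∈ annDeg T d ↔ apolar f T = 0 ∧ f.IsHomogeneous d := by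
  rw [annDeg, Submodule.mem_inf, Submodule.restrictScalars_mem, mem_annIdeal,
    mem_homogeneousSubmodule]

/-- `T` is concise: `Ann(T)` contains no nonzero linear form. -/
def IsConcise (T : MvPolynomial σ ℂ) : Prop := annDeg T 1 = ⊥

/-- `S_1 · Ann(T)_2`, the linear span of the products of a variable and a quadric in `Ann(T)`. -/
noncomputable def linTimesQuadrics (T : MvPolynomial σ ℂ) : Submodule ℂ (MvPolynomial σ ℂ) :=
  Submodule.span ℂ {p | ∃ i : σ, ∃ f ∈ annDeg T 2, p = X i * f}

/-- The number of minimal cubic generators `dim Ann(T)_3 - dim (S_1 · Ann(T)_2)`. -/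
noncomputable def numCubicGens (T : MvPolynomial σ ℂ) : ℕ :=
  Module.finrank ℂ (annDeg T 3) - Module.finrank ℂ (linTimesQuadrics T)

lemma linTimesQuadrics_le (T : MvPolynomial σ ℂ) : linTimesQuadrics T ≤ annDeg T 3 := by
  rw [linTimesQuadrics, Submodule.span_le]
  rintro _ ⟨i, f, hf, rfl⟩
  rw [mem_annDeg] at hf
  show X i * f ∈ annDeg T 3
  rw [mem_annDeg, apolar_mul, hf.1, map_zero]
  exact ⟨rfl, by simpa [add_comm] using (isHomogeneous_X ℂ i).mul hf.2⟩

/-- Coefficients of `∂^m T`. -/
lemma coeff_monomialDiff (m w : σ →₀ ℕ) (T : MvPolynomial σ ℂ) :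
    coeff w (monomialDiff m T) =
      coeff (w + m) T * m.prod fun i e => (((w + m) i).descFactorial e : ℂ) := by
  classical
  induction T using MvPolynomial.induction_on' with
  | monomial u c =>
    rw [monomialDiff_monomial, coeff_monomial, coeff_monomial]
    by_cases h : u = w + m
    · subst h
      simp
    · rw [if_neg h, zero_mul]
      split_ifs with h1
      · have h2 : ¬ m ≤ u := by
          intro h3
          apply h
          rw [← h1, tsub_add_cancel_of_le h3]
        have h3 : ∃ i, u i < m i := by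
          by_contra h4
          push Not at h4
          exact h2 h4
        obtain ⟨i, hi⟩ := h3
        rw [mul_eq_zero]
        right
        rw [Finsupp.prod, Finset.prod_eq_zero_iff]
        refine ⟨i, ?_, ?_⟩
        · rw [Finsupp.mem_support_iff]
          omega
        · rw [Nat.cast_eq_zero, Nat.descFactorial_eq_zero_iff_lt]
          exact hi
      · rfl
  | add p q hp hq => rw [map_add, coeff_add, hp, hq, coeff_add, add_mul]

/-- Coefficients of `f(∂) T`. -/
lemma coeff_apolar (f T : MvPolynomial σ ℂ) (w : σ →₀ ℕ) :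
    coeff w (apolar f T) = ∑ m ∈ f.support, coeff m f *
      (coeff (w + m) T * m.prod fun i e => (((w + m) i).descFactorial e : ℂ)) := by
  conv_lhs => rw [f.as_sum]
  rw [map_sum, LinearMap.sum_apply, coeff_sum]
  refine Finset.sum_congr rfl fun m _ => ?_
  rw [apolar_monomial, coeff_smul, smul_eq_mul, coeff_monomialDiff]

/-- If `m₀` is the only exponent with `T_{w + m₀} ≠ 0`, then the coefficient at `m₀` of each
member of the apolar ideal vanishes. -/
lemma coeff_eq_zero_of_unique {f T : MvPolynomial σ ℂ} (hf : apolar f T = 0) (w m₀ : σ →₀ ℕ)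
    (h0 : coeff (w + m₀) T ≠ 0) (h1 : ∀ m, coeff (w + m) T ≠ 0 → m = m₀) : coeff m₀ f = 0 := by
  classical
  have h2 := coeff_apolar f T w
  rw [hf, coeff_zero] at h2
  rw [Finset.sum_eq_single m₀] at h2
  · have h3 : (m₀.prod fun i e => (((w + m₀) i).descFactorial e : ℂ)) ≠ 0 := by
      rw [Finsupp.prod, Finset.prod_ne_zero_iff]
      intro i _
      rw [Nat.cast_ne_zero]
      intro h4
      rw [Nat.descFactorial_eq_zero_iff_lt, Finsupp.add_apply] at h4
      omega
    have h5 := mul_eq_zero.1 h2.symm
    rcases h5 with h5 | h5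
    · exact h5
    · exact absurd h5 (mul_ne_zero h0 h3)
  · intro m _ hm
    have : coeff (w + m) T = 0 := by
      by_contra h6
      exact hm (h1 m h6)
    rw [this, zero_mul, mul_zero]
  · intro h3
    rw [notMem_support_iff.1 h3, zero_mul]


section Construction

variable {a : ℕ}

/-- The exponents of the monomials of degree two in `a` variables. -/
abbrev Quad (a : ℕ) : Type :=
  {q : Fin a →₀ ℕ // q ∈ (Finset.univ : Finset (Fin a)).finsuppAntidiag 2}

lemma mem_antidiag (d : ℕ) (c : Fin a →₀ ℕ) :
    c ∈ (Finset.univ : Finset (Fin a)).finsuppAntidiag d ↔ c.degree = d := by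
  rw [Finset.mem_finsuppAntidiag, Finsupp.degree_eq_sum]
  simp

variable (e : (Fin a ⊕ Quad a) ≃ σ)

lemma emb_injective : Function.Injective fun i : Fin a => e (Sum.inl i) :=
  e.injective.comp Sum.inl_injective

/-- The exponent of the monomial `x^c`. -/
noncomputable def emb (c : Fin a →₀ ℕ) : σ →₀ ℕ := Finsupp.mapDomain (fun i => e (Sum.inl i)) c

/-- The `x`-part of an exponent. -/
noncomputable def res (w : σ →₀ ℕ) : Fin a →₀ ℕ :=
  Finsupp.comapDomain (fun i => e (Sum.inl i)) w (emb_injective e).injOn

/-- The cubic `∑ z_q x^q`. -/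
noncomputable def cubic : MvPolynomial σ ℂ :=
  ∑ q : Quad a, monomial (emb e q.1 + Finsupp.single (e (Sum.inr q)) 1) 1

lemma res_emb (c : Fin a →₀ ℕ) : res e (emb e c) = c :=
  Finsupp.comapDomain_mapDomain _ (emb_injective e) c

lemma res_add (v w : σ →₀ ℕ) : res e (v + w) = res e v + res e w :=
  Finsupp.comapDomain_add_of_injective (emb_injective e) v w

lemma res_single (q : Quad a) (n : ℕ) : res e (Finsupp.single (e (Sum.inr q)) n) = 0 := by
  classical
  ext i
  rw [res, Finsupp.comapDomain_apply, Finsupp.single_apply, if_neg, Finsupp.coe_zero,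
    Pi.zero_apply]
  intro h
  exact absurd (e.injective h) (by simp)

lemma emb_apply_inr (c : Fin a →₀ ℕ) (q : Quad a) : emb e c (e (Sum.inr q)) = 0 := by
  rw [emb, Finsupp.mapDomain_of_notMem_range]
  rintro ⟨i, hi⟩
  exact absurd (e.injective hi) (by simp)

lemma degree_emb (c : Fin a →₀ ℕ) : (emb e c).degree = c.degree :=
  Finsupp.degree_mapDomain _ c

lemma emb_add (c c' : Fin a →₀ ℕ) : emb e (c + c') = emb e c + emb e c' :=
  Finsupp.mapDomain_add

lemma emb_single (i : Fin a) (n : ℕ) :
    emb e (Finsupp.single i n) = Finsupp.single (e (Sum.inl i)) n :=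
  Finsupp.mapDomain_single

lemma quad_degree (q : Quad a) : q.1.degree = 2 := (mem_antidiag 2 q.1).1 q.2

lemma coeff_cubic_ne {u : σ →₀ ℕ} (h : coeff u (cubic e) ≠ 0) :
    ∃ q : Quad a, u = emb e q.1 + Finsupp.single (e (Sum.inr q)) 1 := by
  classical
  by_contra h1
  push Not at h1
  apply h
  rw [cubic, coeff_sum]
  refine Finset.sum_eq_zero fun q _ => ?_
  rw [coeff_monomial, if_neg]
  exact fun h2 => h1 q h2.symm

lemma coeff_cubic_self (q : Quad a) :
    coeff (emb e q.1 + Finsupp.single (e (Sum.inr q)) 1) (cubic e) = 1 := by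
  classical
  rw [cubic, coeff_sum, Finset.sum_eq_single q]
  · rw [coeff_monomial, if_pos rfl]
  · intro q' _ hq'
    rw [coeff_monomial, if_neg]
    intro h
    apply hq'
    have h1 := congrArg (res e) h
    rw [res_add, res_add, res_emb, res_emb, res_single, res_single, add_zero, add_zero] at h1
    exact Subtype.ext h1
  · intro h
    exact absurd (Finset.mem_univ q) h

lemma isHomogeneous_cubic : (cubic e).IsHomogeneous 3 := by
  rw [cubic]
  refine IsHomogeneous.sum _ _ _ fun q _ => ?_
  apply isHomogeneous_monomial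
  rw [map_add, degree_emb, quad_degree, Finsupp.degree_single]

lemma coeff_inr_eq_zero {f : MvPolynomial σ ℂ} (hf : apolar f (cubic e) = 0) (q : Quad a) :
    coeff (Finsupp.single (e (Sum.inr q)) 1) f = 0 := by
  refine coeff_eq_zero_of_unique hf (emb e q.1) _ ?_ ?_
  · rw [coeff_cubic_self]
    exact one_ne_zero
  · intro m hm
    obtain ⟨q', hq'⟩ := coeff_cubic_ne e hm
    have h1 := congrArg (res e) hq'
    rw [res_add, res_add, res_emb, res_emb, res_single, add_zero] at h1
    have h2 := congrArg Finsupp.degree h1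
    rw [map_add, quad_degree, quad_degree] at h2
    have h3 : (res e m).degree = 0 := by omega
    rw [Finsupp.degree_eq_zero_iff] at h3
    rw [h3, add_zero] at h1
    have h4 : q = q' := Subtype.ext h1
    subst h4
    exact add_left_cancel hq'

lemma quad_of_inr {q : Quad a} {m w : σ →₀ ℕ}
    (hm : coeff (w + m) (cubic e) ≠ 0) (hw : w (e (Sum.inr q)) ≠ 0) :
    w + m = emb e q.1 + Finsupp.single (e (Sum.inr q)) 1 := by
  classical
  obtain ⟨q', hq'⟩ := coeff_cubic_ne e hm
  have h1 := DFunLike.congr_fun hq' (e (Sum.inr q))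
  rw [Finsupp.add_apply, Finsupp.add_apply, emb_apply_inr, zero_add, Finsupp.single_apply] at h1
  split_ifs at h1 with h2
  · have h3 : q' = q := Sum.inr_injective (e.injective h2)
    subst h3
    exact hq'
  · omega

lemma coeff_inl_eq_zero {f : MvPolynomial σ ℂ} (hf : apolar f (cubic e) = 0) (i : Fin a) :
    coeff (Finsupp.single (e (Sum.inl i)) 1) f = 0 := by
  classical
  let q : Quad a := ⟨Finsupp.single i 2, by rw [mem_antidiag, Finsupp.degree_single]⟩
  have h0 : emb e q.1 = Finsupp.single (e (Sum.inl i)) 1 + Finsupp.single (e (Sum.inl i)) 1 := by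
    show emb e (Finsupp.single i 2) = _
    rw [emb_single, ← Finsupp.single_add]
  have h1 : Finsupp.single (e (Sum.inl i)) 1 + Finsupp.single (e (Sum.inr q)) 1 +
      Finsupp.single (e (Sum.inl i)) 1 = emb e q.1 + Finsupp.single (e (Sum.inr q)) 1 := by
    rw [h0, add_right_comm]
  refine coeff_eq_zero_of_unique hf
    (Finsupp.single (e (Sum.inl i)) 1 + Finsupp.single (e (Sum.inr q)) 1) _ ?_ ?_
  · rw [h1, coeff_cubic_self]
    exact one_ne_zero
  · intro m hm
    have h2 := quad_of_inr e (q := q) hm (by
      rw [Finsupp.add_apply, Finsupp.single_eq_same]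
      omega)
    rw [← h1] at h2
    exact add_left_cancel h2

lemma coeff_emb_eq_zero {f : MvPolynomial σ ℂ} (hf : apolar f (cubic e) = 0) (q : Quad a) :
    coeff (emb e q.1) f = 0 := by
  refine coeff_eq_zero_of_unique hf (Finsupp.single (e (Sum.inr q)) 1) _ ?_ ?_
  · rw [add_comm, coeff_cubic_self]
    exact one_ne_zero
  · intro m hm
    have h2 := quad_of_inr e (q := q) hm (by
      rw [Finsupp.single_eq_same]
      omega)
    rw [add_comm] at h2
    exact add_right_cancel h2

lemma exists_single {u : σ →₀ ℕ} (hu : u.degree = 1) : ∃ v, u = Finsupp.single v 1 := by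
  classical
  have h1 : u ≠ 0 := by
    rintro rfl
    simp at hu
  obtain ⟨v, hv⟩ := Finsupp.ne_iff.1 h1
  have h2 : u = (u - Finsupp.single v 1) + Finsupp.single v 1 := by
    rw [tsub_add_cancel_of_le]
    rw [Finsupp.single_le_iff]
    have : u v ≠ 0 := hv
    omega
  have h3 := congrArg Finsupp.degree h2
  rw [map_add, Finsupp.degree_single, hu] at h3
  have h4 : (u - Finsupp.single v 1).degree = 0 := by omega
  rw [Finsupp.degree_eq_zero_iff] at h4
  rw [h4, zero_add] at h2
  exact ⟨v, h2⟩

lemma isConcise_cubic : IsConcise (cubic e) := by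
  rw [IsConcise, eq_bot_iff]
  intro f hf
  rw [mem_annDeg] at hf
  rw [Submodule.mem_bot]
  ext u
  rw [coeff_zero]
  by_cases hu : u.degree = 1
  · obtain ⟨v, hv⟩ := exists_single hu
    subst hv
    obtain ⟨s, rfl⟩ := e.surjective v
    rcases s with i | q
    · exact coeff_inl_eq_zero e hf.1 i
    · exact coeff_inr_eq_zero e hf.1 q
  · exact hf.2.coeff_eq_zero hu

/-- The cubes `x^c`, `|c| = 3`, are exponents on which the members of `S_1 · Ann(T)_2` vanish. -/
lemma coeff_emb_linTimesQuadrics {p : MvPolynomial σ ℂ} (hp : p ∈ linTimesQuadrics (cubic e))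
    {c : Fin a →₀ ℕ} (hc : c.degree = 3) : coeff (emb e c) p = 0 := by
  classical
  rw [linTimesQuadrics] at hp
  induction hp using Submodule.span_induction with
  | mem p hp =>
    obtain ⟨v, f, hf, rfl⟩ := hp
    rw [mem_annDeg] at hf
    rw [coeff_X_mul']
    split_ifs with hv
    · obtain ⟨s, rfl⟩ := e.surjective v
      rcases s with i | q
      · have h1 : emb e c (e (Sum.inl i)) = c i :=
          Finsupp.mapDomain_apply (emb_injective e) c i
        rw [Finsupp.mem_support_iff, h1] at hv
        have h2 : c = (c - Finsupp.single i 1) + Finsupp.single i 1 := by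
          rw [tsub_add_cancel_of_le]
          rw [Finsupp.single_le_iff]
          omega
        have h3 : (c - Finsupp.single i 1).degree = 2 := by
          have := congrArg Finsupp.degree h2
          rw [map_add, Finsupp.degree_single] at this
          omega
        rw [h2, emb_add, emb_single, add_tsub_cancel_right]
        exact coeff_emb_eq_zero e hf.1 ⟨_, (mem_antidiag 2 _).2 h3⟩
      · rw [Finsupp.mem_support_iff, emb_apply_inr] at hv
        exact absurd rfl hv
    · rfl
  | zero => rw [coeff_zero]
  | add p q _ _ hp hq => rw [coeff_add, hp, hq, add_zero]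
  | smul r p _ hp => rw [coeff_smul, hp, smul_zero]

/-- The set of the exponents `x^c` with `|c| = 3`. -/
def cubeSet : Set (σ →₀ ℕ) :=
  emb e '' ((Finset.univ : Finset (Fin a)).finsuppAntidiag 3 : Set (Fin a →₀ ℕ))

lemma emb_inj : Function.Injective (emb e) := by
  intro c c' h
  have := congrArg (res e) h
  rwa [res_emb, res_emb] at this

lemma finrank_cubes :
    Module.finrank ℂ (restrictSupport ℂ (cubeSet e)) = (a + 2).choose 3 := by
  rw [Module.finrank_eq_nat_card_basis (basisRestrictSupport ℂ (cubeSet e)), cubeSet,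
    Nat.card_image_of_injective (emb_inj e), Nat.card_coe_set_eq, Set.ncard_coe_finset,
    Finset.card_finsuppAntidiag_nat_eq_choose, Finset.card_univ, Fintype.card_fin]
  rfl

lemma cubes_le : restrictSupport ℂ (cubeSet e) ≤ annDeg (cubic e) 3 := by
  rw [restrictSupport_eq_span, Submodule.span_le]
  rintro _ ⟨_, ⟨c, hc, rfl⟩, rfl⟩
  rw [Finset.mem_coe, mem_antidiag] at hc
  show monomial (emb e c) (1 : ℂ) ∈ annDeg (cubic e) 3
  rw [mem_annDeg]
  refine ⟨?_, isHomogeneous_monomial _ (by rw [degree_emb, hc])⟩
  rw [apolar_monomial, one_smul]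
  ext w
  rw [coeff_monomialDiff, coeff_zero]
  have h1 : coeff (w + emb e c) (cubic e) = 0 := by
    by_contra h2
    obtain ⟨q, hq⟩ := coeff_cubic_ne e h2
    have h3 := congrArg (fun u => (res e u).degree) hq
    simp only [res_add, res_emb, res_single, add_zero, map_add, quad_degree] at h3
    omega
  rw [h1, zero_mul]

instance [Finite σ] (T : MvPolynomial σ ℂ) (d : ℕ) : Module.Finite ℂ (annDeg T d) := by
  have h1 : Module.Finite ℂ (homogeneousSubmodule σ ℂ d) :=
    Module.Finite.iff_fg.2 (homogeneousSubmodule_fg σ ℂ d)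
  have h2 : annDeg T d ≤ homogeneousSubmodule σ ℂ d := inf_le_right
  exact Submodule.finiteDimensional_of_le h2

lemma le_numCubicGens [Finite σ] : (a + 2).choose 3 ≤ numCubicGens (cubic e) := by
  have hfin : Module.Finite ℂ (annDeg (cubic e) 3) := inferInstance
  have h1 : Module.Finite ℂ (linTimesQuadrics (cubic e)) :=
    Submodule.finiteDimensional_of_le (linTimesQuadrics_le _)
  have h2 : Module.Finite ℂ (restrictSupport ℂ (cubeSet e)) :=
    Submodule.finiteDimensional_of_le (cubes_le e)
  have h3 : linTimesQuadrics (cubic e) ⊓ restrictSupport ℂ (cubeSet e) = ⊥ := by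
    rw [eq_bot_iff]
    rintro p ⟨hp1, hp2⟩
    rw [Submodule.mem_bot]
    ext u
    rw [coeff_zero]
    by_contra hu
    have hu' : u ∈ cubeSet e := hp2 (Finset.mem_coe.2 (mem_support_iff.2 hu))
    obtain ⟨c, hc, rfl⟩ := hu'
    rw [Finset.mem_coe, mem_antidiag] at hc
    exact hu (coeff_emb_linTimesQuadrics e hp1 hc)
  have h4 := Submodule.finrank_sup_add_finrank_inf_eq (linTimesQuadrics (cubic e))
    (restrictSupport ℂ (cubeSet e))
  rw [h3, finrank_bot, add_zero, finrank_cubes] at h4
  have h5 : linTimesQuadrics (cubic e) ⊔ restrictSupport ℂ (cubeSet e) ≤ annDeg (cubic e) 3 :=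
    sup_le (linTimesQuadrics_le _) (cubes_le e)
  have h6 := Submodule.finrank_mono h5
  rw [numCubicGens]
  omega

end Construction

lemma card_eq (a : ℕ) : Fintype.card (Fin a ⊕ Quad a) = a * (a + 3) / 2 := by
  rw [Fintype.card_sum, Fintype.card_fin, Fintype.card_coe,
    Finset.card_finsuppAntidiag_nat_eq_choose, Finset.card_univ, Fintype.card_fin]
  show a + (a + 1).choose 2 = _
  rw [Nat.choose_two_right, Nat.add_sub_cancel]
  have h1 : a * (a + 3) = (a + 1) * a + a * 2 := by ring
  rw [h1, Nat.add_mul_div_right _ _ two_pos, add_comm]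

/-- For every `a` there is a concise cubic in `m = a (a + 3) / 2` variables whose apolar ideal has
at least `binom (a + 2) 3` minimal cubic generators; in particular there are `m ≥ 1` and a concise
`T ∈ S^3 ℂ^m` such that `Ann(T)` has at least `m` minimal cubic generators. -/
theorem result :
    (∀ a : ℕ, ∃ T : MvPolynomial (Fin (a * (a + 3) / 2)) ℂ,
      T.IsHomogeneous 3 ∧ IsConcise T ∧ (a + 2).choose 3 ≤ numCubicGens T) ∧
    ∃ m : ℕ, 1 ≤ m ∧ ∃ T : MvPolynomial (Fin m) ℂ,
      T.IsHomogeneous 3 ∧ IsConcise T ∧ m ≤ numCubicGens T := by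
  have key : ∀ a : ℕ, ∃ T : MvPolynomial (Fin (a * (a + 3) / 2)) ℂ,
      T.IsHomogeneous 3 ∧ IsConcise T ∧ (a + 2).choose 3 ≤ numCubicGens T := by
    intro a
    let e : (Fin a ⊕ Quad a) ≃ Fin (a * (a + 3) / 2) := Fintype.equivFinOfCardEq (card_eq a)
    exact ⟨cubic e, isHomogeneous_cubic e, isConcise_cubic e, le_numCubicGens e⟩
  refine ⟨key, 9, by norm_num, ?_⟩
  obtain ⟨T, h1, h2, h3⟩ := key 3
  refine ⟨T, h1, h2, le_trans ?_ h3⟩
  decide

end Pool.Agent.Results.MP_1eaf4f_ag.ManyCubicGenerators
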